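import Pool.Agent.V1143.EC.Main

/-!
MP_3e6494_nt: large central values `L(χ, 1/2)` for `χ` in an arbitrary subgroup `H` of the group of
the Dirichlet characters modulo a prime `q`, as soon as `#H ≥ q ^ (1/2 + ε)`; more precisely as soon
as `#H ≥ √q * log q * Z` with `Z` large.

The proof: resonance with the Euler product `R(χ) = ∏ (1 - χ(p)/2)⁻¹` over some small primes. The
sum of `|R(χ)|² χ(n)` over a subgroup is nonnegative for all `n`, and for products `n` of `k`
different primes of the resonator it is at least `2 ^ (-k)` times the sum for `n = 1`. This needs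
no bound for the number of small integers in the annihilator of `H`. The value `L(χ, 1/2)` is
approximated by a Dirichlet polynomial with nonnegative weights and of length `q (log q)²`
(Pólya–Vinogradov); only the principal character has to be removed, whence the size of `H`.
-/

set_option autoImplicit false

namespace Pool.Agent.Results.MP_3e6494_nt.ThinSubgroups

open Real

/-- 1. Let `0 < ε ≤ 1/2`. For all sufficiently large primes `q`, every subgroup `H` of the group of
the Dirichlet characters modulo `q` with at least `q ^ (1/2 + ε)` elements contains an even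
nonprincipal character `χ` with
`|L(χ, 1/2)| ≥ exp ((√ε / 300) * √(log q / log log q))`.

2. There is `Z₀` such that for all primes `q`, all `Z ≥ Z₀` and all subgroups `H` with at least
`√q * log q * Z` elements there is an even nonprincipal `χ` in `H` with
`|L(χ, 1/2)| ≥ exp ((1/200) * √(log Z / log log Z))`. -/
theorem result :
    (∀ ε : ℝ, 0 < ε → ε ≤ 1 / 2 → ∃ q₀ : ℕ, ∀ (q : ℕ) [Fact q.Prime], q₀ ≤ q →
      ∀ H : Subgroup (DirichletCharacter ℂ q), (q : ℝ) ^ (1 / 2 + ε) ≤ Nat.card H →
      ∃ χ ∈ H, χ.Even ∧ χ ≠ 1 ∧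
        exp (√ε / 300 * √(log q / log (log q))) ≤ ‖DirichletCharacter.LFunction χ (1 / 2)‖) ∧
    ∃ Z₀ : ℝ, ∀ (q : ℕ) [Fact q.Prime] (H : Subgroup (DirichletCharacter ℂ q)) (Z : ℝ),
      Z₀ ≤ Z → √q * log q * Z ≤ Nat.card H →
      ∃ χ ∈ H, χ.Even ∧ χ ≠ 1 ∧
        exp (1 / 200 * √(log Z / log (log Z))) ≤ ‖DirichletCharacter.LFunction χ (1 / 2)‖ :=
  ⟨Pool.Agent.V1143.EC.powers, Pool.Agent.V1143.EC.main⟩

end Pool.Agent.Results.MP_3e6494_nt.ThinSubgroups
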